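import Pool.Agent.H542R2.RK.P_LLL

namespace Pool.Agent.Q240.Col

open Finset

/-- the convex trend -/
def T (q m : ℕ) (j : ℕ) : ℤ := (((q + 1) * j + j ^ 2 / (2 * m) : ℕ) : ℤ)

/-- the residues -/
def r (p : ℕ) (j : ℕ) : ℤ := ((j ^ 2 % p : ℕ) : ℤ)

/-- the sequence -/
def A (p q m : ℕ) {n : ℕ} (y : Fin n → Fin q) (j : Fin n) : ℤ :=
  p * (T q m j.val + ((y j : ℕ) : ℤ)) + r p j.val

/-- collinearity of the points with indices `i < j < k` -/
def E (p q m : ℕ) {n : ℕ} (t : Fin n × Fin n × Fin n) (y : Fin n → Fin q) : Prop :=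
  (A p q m y t.2.2 - A p q m y t.2.1) * ((t.2.1.val : ℤ) - t.1.val) =
    (A p q m y t.2.1 - A p q m y t.1) * ((t.2.2.val : ℤ) - t.2.1.val)

/-- the possible difference pairs -/
def PP (p H : ℕ) : Finset (ℕ × ℕ) :=
  ((Icc 1 H) ×ˢ (Icc 1 H)).filter
    (fun d => d.1 * d.2 ≤ H ∧ (p ∣ d.1 ∨ p ∣ d.2 ∨ p ∣ d.1 + d.2))

theorem mod_r {p : ℕ} (j : ℕ) : (p : ℤ) ∣ r p j - (j : ℤ) ^ 2 := by
  unfold r
  have h := Nat.mod_add_div (j ^ 2) p
  refine ⟨-((j ^ 2 / p : ℕ) : ℤ), ?_⟩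
  have h' : ((j ^ 2 % p : ℕ) : ℤ) + (p : ℤ) * ((j ^ 2 / p : ℕ) : ℤ) = (j : ℤ) ^ 2 := by
    exact_mod_cast h
  linarith

/-- a collinear triple has small differences and one of the three differences is divisible by
`p` -/
theorem E_mem {p q m n : ℕ} [hp : Fact p.Prime] (hm : 1 ≤ m) {y : Fin n → Fin q}
    {i j k : Fin n} (hij : i < j) (hjk : j < k) (h : E p q m (i, j, k) y) :
    ((j.val - i.val, k.val - j.val) : ℕ × ℕ) ∈ PP p (2 * m * (q + 1)) := by
  obtain ⟨a, ha⟩ : ∃ a : ℕ, j.val = i.val + a := ⟨j.val - i.val, by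
    have : i.val < j.val := hij
    omega⟩
  obtain ⟨b, hb⟩ : ∃ b : ℕ, k.val = j.val + b := ⟨k.val - j.val, by
    have : j.val < k.val := hjk
    omega⟩
  have ha1 : 1 ≤ a := by
    have : i.val < j.val := hij
    omega
  have hb1 : 1 ≤ b := by
    have : j.val < k.val := hjk
    omega
  have hja : j.val - i.val = a := by omega
  have hkb : k.val - j.val = b := by omega
  rw [hja, hkb]
  have hjz : (j.val : ℤ) = i.val + a := by exact_mod_cast ha
  have hkz : (k.val : ℤ) = i.val + a + b := by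
    have : k.val = i.val + a + b := by omega
    exact_mod_cast this
  have haz : (1 : ℤ) ≤ a := by exact_mod_cast ha1
  have hbz : (1 : ℤ) ≤ b := by exact_mod_cast hb1
  have hppos : (0 : ℤ) < p := by exact_mod_cast hp.out.pos
  have hE : (A p q m y k - A p q m y j) * (a : ℤ) = (A p q m y j - A p q m y i) * (b : ℤ) := by
    have h' := h
    unfold E at h'
    simp only at h'
    have e1 : (j.val : ℤ) - i.val = a := by rw [hjz]; ring
    have e2 : (k.val : ℤ) - j.val = b := by rw [hkz, hjz]; ring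
    rw [e1, e2] at h'
    exact h'
  -- bound
  have hbound : ∀ l : Fin n, ∃ e : ℤ, 2 * m * A p q m y l =
      2 * m * p * (q + 1) * l.val + p * (l.val : ℤ) ^ 2 + e ∧ -(2 * m * p) < e ∧
        e < 2 * m * p * q := by
    intro l
    have hmz : (1 : ℤ) ≤ m := by exact_mod_cast hm
    have h1 := Nat.mod_add_div (l.val ^ 2) (2 * m)
    have h2 : l.val ^ 2 % (2 * m) < 2 * m := Nat.mod_lt _ (by omega)
    have h1' : ((l.val ^ 2 % (2 * m) : ℕ) : ℤ) + 2 * m * ((l.val ^ 2 / (2 * m) : ℕ) : ℤ)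
        = (l.val : ℤ) ^ 2 := by exact_mod_cast h1
    have h2' : ((l.val ^ 2 % (2 * m) : ℕ) : ℤ) < 2 * m := by exact_mod_cast h2
    have h3 : (0 : ℤ) ≤ ((l.val ^ 2 % (2 * m) : ℕ) : ℤ) := Int.natCast_nonneg _
    have h4 : (((y l : ℕ)) : ℤ) + 1 ≤ q := by exact_mod_cast (y l).isLt
    have h5 : (0 : ℤ) ≤ (((y l : ℕ)) : ℤ) := Int.natCast_nonneg _
    have h6 : r p l.val < p := by
      unfold r
      exact_mod_cast Nat.mod_lt _ hp.out.pos
    have h7 : 0 ≤ r p l.val := by unfold r; exact Int.natCast_nonneg _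
    refine ⟨2 * m * p * (((y l : ℕ)) : ℤ) + 2 * m * r p l.val
      - p * ((l.val ^ 2 % (2 * m) : ℕ) : ℤ), ?_, ?_, ?_⟩
    · unfold A T
      push_cast
      push_cast at h1'
      linear_combination (p : ℤ) * h1'
    · have e1 : 0 ≤ 2 * (m : ℤ) * p * (((y l : ℕ)) : ℤ) := by positivity
      have e2 : 0 ≤ 2 * (m : ℤ) * r p l.val := by positivity
      have e3 : (p : ℤ) * ((l.val ^ 2 % (2 * m) : ℕ) : ℤ) < p * (2 * m) :=
        mul_lt_mul_of_pos_left h2' hppos
      linarith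
    · have e1 : 2 * (m : ℤ) * p * (((y l : ℕ)) : ℤ) ≤ 2 * m * p * (q - 1) :=
        mul_le_mul_of_nonneg_left (by linarith) (by positivity)
      have e2 : 2 * (m : ℤ) * r p l.val < 2 * m * p :=
        mul_lt_mul_of_pos_left h6 (by positivity)
      have e3 : 0 ≤ (p : ℤ) * ((l.val ^ 2 % (2 * m) : ℕ) : ℤ) := by positivity
      linarith
  obtain ⟨ei, hei, hei1, hei2⟩ := hbound i
  obtain ⟨ej, hej, hej1, hej2⟩ := hbound j
  obtain ⟨ek, hek, hek1, hek2⟩ := hbound k
  rw [hjz] at hej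
  rw [hkz] at hek
  have hsum : (p : ℤ) * (a * b * (a + b)) + (ek * a - ej * (a + b) + ei * b) = 0 := by
    have h2m : 2 * (m : ℤ) * ((A p q m y k - A p q m y j) * (a : ℤ)) =
        2 * m * ((A p q m y j - A p q m y i) * (b : ℤ)) := by rw [hE]
    have h3 : (2 * m * A p q m y k - 2 * m * A p q m y j) * (a : ℤ) =
        (2 * m * A p q m y j - 2 * m * A p q m y i) * (b : ℤ) := by linarith
    rw [hei, hej, hek] at h3
    linear_combination h3
  have hapos : (0 : ℤ) < a := by linarith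
  have hbpos : (0 : ℤ) < b := by linarith
  have hlt : (p : ℤ) * (a * b * (a + b)) < 2 * m * p * (q + 1) * (a + b) := by
    have e1 : -(2 * m * p) * (a : ℤ) < ek * a := mul_lt_mul_of_pos_right hek1 hapos
    have e2 : -(2 * m * p) * (b : ℤ) < ei * b := mul_lt_mul_of_pos_right hei1 hbpos
    have e3 : ej * ((a : ℤ) + b) < 2 * m * p * q * (a + b) :=
      mul_lt_mul_of_pos_right hej2 (by linarith)
    linarith
  have hlt2 : (a : ℤ) * b < 2 * m * (q + 1) := by
    have hpos : (0 : ℤ) < p * (a + b) := mul_pos hppos (by linarith)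
    by_contra hcon
    push Not at hcon
    have := mul_le_mul_of_nonneg_left hcon hpos.le
    nlinarith
  have hab : a * b ≤ 2 * m * (q + 1) := by
    have : a * b < 2 * m * (q + 1) := by exact_mod_cast hlt2
    omega
  -- divisibility
  have hdiv : (p : ℤ) ∣ (a : ℤ) * b * (a + b) := by
    obtain ⟨ci, hci⟩ := mod_r (p := p) i.val
    obtain ⟨cj, hcj⟩ := mod_r (p := p) j.val
    obtain ⟨ck, hck⟩ := mod_r (p := p) k.val
    rw [hjz] at hcj
    rw [hkz] at hck
    have h1 : A p q m y i = p * (T q m i.val + ((y i : ℕ) : ℤ)) + (p * ci + (i.val : ℤ) ^ 2) := by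
      unfold A; linarith
    have h2 : A p q m y j = p * (T q m j.val + ((y j : ℕ) : ℤ)) +
        (p * cj + ((i.val : ℤ) + a) ^ 2) := by
      unfold A; linarith
    have h3 : A p q m y k = p * (T q m k.val + ((y k : ℕ) : ℤ)) +
        (p * ck + ((i.val : ℤ) + a + b) ^ 2) := by
      unfold A; linarith
    rw [h1, h2, h3] at hE
    refine ⟨(T q m j.val + ((y j : ℕ) : ℤ) + cj) * (a + b) -
      (T q m k.val + ((y k : ℕ) : ℤ) + ck) * a - (T q m i.val + ((y i : ℕ) : ℤ) + ci) * b, ?_⟩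
    linear_combination hE
  have hdiv' : p ∣ a * b * (a + b) := by exact_mod_cast hdiv
  unfold PP
  rw [mem_filter, mem_product, mem_Icc, mem_Icc]
  have haH : a ≤ 2 * m * (q + 1) := le_trans (Nat.le_mul_of_pos_right a hb1) hab
  have hbH : b ≤ 2 * m * (q + 1) := le_trans (Nat.le_mul_of_pos_left b ha1) hab
  refine ⟨⟨⟨ha1, haH⟩, ⟨hb1, hbH⟩⟩, hab, ?_⟩
  rcases (hp.out.dvd_mul).mp hdiv' with h | h
  · rcases (hp.out.dvd_mul).mp h with h | h
    · exact Or.inl h
    · exact Or.inr (Or.inl h)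
  · exact Or.inr (Or.inr h)

end Pool.Agent.Q240.Col
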