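import Pool.Agent.Q240.Col.Lll

namespace Pool.Agent.Q240.Col

open Finset

/-- pairs with product at most `K` -/
def Ph (K : ℕ) : Finset (ℕ × ℕ) := ((Icc 1 K) ×ˢ (Icc 1 K)).filter (fun d => d.1 * d.2 ≤ K)

theorem mem_Ph {K : ℕ} {d : ℕ × ℕ} : d ∈ Ph K ↔ 1 ≤ d.1 ∧ 1 ≤ d.2 ∧ d.1 * d.2 ≤ K := by
  unfold Ph
  rw [mem_filter, mem_product, mem_Icc, mem_Icc]
  constructor
  · rintro ⟨⟨⟨h1, _⟩, ⟨h2, _⟩⟩, h3⟩
    exact ⟨h1, h2, h3⟩
  · rintro ⟨h1, h2, h3⟩
    exact ⟨⟨⟨h1, (Nat.le_mul_of_pos_right _ h2).trans h3⟩,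
      ⟨h2, (Nat.le_mul_of_pos_left _ h1).trans h3⟩⟩, h3⟩

theorem card_Ph (K : ℕ) : ((Ph K).card : ℝ) ≤ K * (1 + Real.log K) := by
  have h1 : (Ph K).card ≤ ∑ u ∈ Icc 1 K, K / u := by
    have hsub : Ph K ⊆ (Icc 1 K).biUnion (fun u => (Icc 1 (K / u)).image (fun v => (u, v))) := by
      intro d hd
      rw [mem_Ph] at hd
      rw [mem_biUnion]
      refine ⟨d.1, mem_Icc.mpr ⟨hd.1, (Nat.le_mul_of_pos_right _ hd.2.1).trans hd.2.2⟩, ?_⟩
      rw [mem_image]
      refine ⟨d.2, mem_Icc.mpr ⟨hd.2.1, ?_⟩, rfl⟩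
      rw [Nat.le_div_iff_mul_le hd.1, mul_comm]
      exact hd.2.2
    calc (Ph K).card ≤ _ := card_le_card hsub
      _ ≤ ∑ u ∈ Icc 1 K, ((Icc 1 (K / u)).image (fun v => (u, v))).card := card_biUnion_le
      _ ≤ ∑ u ∈ Icc 1 K, K / u := by
        apply sum_le_sum
        intro u _
        calc ((Icc 1 (K / u)).image (fun v => (u, v))).card ≤ (Icc 1 (K / u)).card :=
              card_image_le
          _ = K / u := by simp
  have h2 : ((∑ u ∈ Icc 1 K, K / u : ℕ) : ℝ) ≤ K * ∑ u ∈ Icc 1 K, ((u : ℝ))⁻¹ := by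
    rw [Nat.cast_sum, mul_sum]
    apply sum_le_sum
    intro u _
    rw [← div_eq_mul_inv]
    exact Nat.cast_div_le
  have h3 : ((harmonic K : ℚ) : ℝ) = ∑ u ∈ Icc 1 K, ((u : ℝ))⁻¹ := by
    rw [harmonic_eq_sum_Icc]
    push_cast
    rfl
  calc ((Ph K).card : ℝ) ≤ ((∑ u ∈ Icc 1 K, K / u : ℕ) : ℝ) := by exact_mod_cast h1
    _ ≤ K * ∑ u ∈ Icc 1 K, ((u : ℝ))⁻¹ := h2
    _ = K * ((harmonic K : ℚ) : ℝ) := by rw [h3]
    _ ≤ K * (1 + Real.log K) := by
      apply mul_le_mul_of_nonneg_left (harmonic_le_one_add_log K) (Nat.cast_nonneg _)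

theorem card_PP {p H K : ℕ} (hp : 0 < p) (hK : 2 * H ≤ p * K + (p - 1)) :
    (PP p H).card ≤ 4 * (Ph K).card := by
  classical
  have hKK : ∀ z : ℕ, p * z ≤ 2 * H → z ≤ K := by
    intro z hz
    by_contra hcon
    push Not at hcon
    have h1 : p * (K + 1) ≤ p * z := Nat.mul_le_mul_left p hcon
    have h2 : p * (K + 1) = p * K + p := by ring
    omega
  have hsub : PP p H ⊆ ((PP p H).filter (fun d => p ∣ d.1)) ∪
      (((PP p H).filter (fun d => p ∣ d.2)) ∪
        (((PP p H).filter (fun d => p ∣ d.1 + d.2 ∧ d.2 ≤ d.1)) ∪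
          ((PP p H).filter (fun d => p ∣ d.1 + d.2 ∧ d.1 ≤ d.2)))) := by
    intro d hd
    have hd' := hd
    unfold PP at hd'
    rw [mem_filter] at hd'
    simp only [mem_union, mem_filter]
    rcases hd'.2.2 with h | h | h
    · exact Or.inl ⟨hd, h⟩
    · exact Or.inr (Or.inl ⟨hd, h⟩)
    · rcases le_total d.2 d.1 with h' | h'
      · exact Or.inr (Or.inr (Or.inl ⟨hd, h, h'⟩))
      · exact Or.inr (Or.inr (Or.inr ⟨hd, h, h'⟩))
  have hbase : ∀ d ∈ PP p H, 1 ≤ d.1 ∧ 1 ≤ d.2 ∧ d.1 * d.2 ≤ H := by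
    intro d hd
    unfold PP at hd
    rw [mem_filter, mem_product, mem_Icc, mem_Icc] at hd
    exact ⟨hd.1.1.1, hd.1.2.1, hd.2.1⟩
  have k1 : ((PP p H).filter (fun d => p ∣ d.1)).card ≤ (Ph K).card := by
    apply card_le_card_of_injOn (fun d => (d.1 / p, d.2))
    · intro d hd
      obtain ⟨h1, h2⟩ := mem_filter.mp (mem_coe.mp hd)
      obtain ⟨h3, h4, h5⟩ := hbase d h1
      obtain ⟨c, hc⟩ := h2
      rw [mem_coe, mem_Ph]
      simp only
      rw [hc, Nat.mul_div_cancel_left c hp]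
      have hc1 : 1 ≤ c := by
        rcases Nat.eq_zero_or_pos c with h | h
        · rw [h] at hc; omega
        · exact h
      refine ⟨hc1, h4, hKK _ ?_⟩
      rw [hc] at h5
      calc p * (c * d.2) = p * c * d.2 := by ring
        _ ≤ H := h5
        _ ≤ 2 * H := by omega
    · intro d hd d' hd' heq
      obtain ⟨_, c, hc⟩ := mem_filter.mp (mem_coe.mp hd)
      obtain ⟨_, c', hc'⟩ := mem_filter.mp (mem_coe.mp hd')
      have h1 := Prod.ext_iff.mp heq
      simp only at h1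
      rw [hc, hc', Nat.mul_div_cancel_left c hp, Nat.mul_div_cancel_left c' hp] at h1
      apply Prod.ext
      · rw [hc, hc', h1.1]
      · exact h1.2
  have k2 : ((PP p H).filter (fun d => p ∣ d.2)).card ≤ (Ph K).card := by
    apply card_le_card_of_injOn (fun d => (d.1, d.2 / p))
    · intro d hd
      obtain ⟨h1, h2⟩ := mem_filter.mp (mem_coe.mp hd)
      obtain ⟨h3, h4, h5⟩ := hbase d h1
      obtain ⟨c, hc⟩ := h2
      rw [mem_coe, mem_Ph]
      simp only
      rw [hc, Nat.mul_div_cancel_left c hp]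
      have hc1 : 1 ≤ c := by
        rcases Nat.eq_zero_or_pos c with h | h
        · rw [h] at hc; omega
        · exact h
      refine ⟨h3, hc1, hKK _ ?_⟩
      rw [hc] at h5
      calc p * (d.1 * c) = d.1 * (p * c) := by ring
        _ ≤ H := h5
        _ ≤ 2 * H := by omega
    · intro d hd d' hd' heq
      obtain ⟨_, c, hc⟩ := mem_filter.mp (mem_coe.mp hd)
      obtain ⟨_, c', hc'⟩ := mem_filter.mp (mem_coe.mp hd')
      have h1 := Prod.ext_iff.mp heq
      simp only at h1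
      rw [hc, hc', Nat.mul_div_cancel_left c hp, Nat.mul_div_cancel_left c' hp] at h1
      apply Prod.ext
      · exact h1.1
      · rw [hc, hc', h1.2]
  have k3 : ((PP p H).filter (fun d => p ∣ d.1 + d.2 ∧ d.2 ≤ d.1)).card ≤ (Ph K).card := by
    apply card_le_card_of_injOn (fun d => ((d.1 + d.2) / p, d.2))
    · intro d hd
      obtain ⟨h1, h2, h2'⟩ := mem_filter.mp (mem_coe.mp hd)
      obtain ⟨h3, h4, h5⟩ := hbase d h1
      obtain ⟨c, hc⟩ := h2
      rw [mem_coe, mem_Ph]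
      simp only
      rw [hc, Nat.mul_div_cancel_left c hp]
      have hc1 : 1 ≤ c := by
        rcases Nat.eq_zero_or_pos c with h | h
        · rw [h] at hc; omega
        · exact h
      refine ⟨hc1, h4, hKK _ ?_⟩
      calc p * (c * d.2) = p * c * d.2 := by ring
        _ = (d.1 + d.2) * d.2 := by rw [hc]
        _ ≤ (d.1 + d.1) * d.2 := by gcongr
        _ = 2 * (d.1 * d.2) := by ring
        _ ≤ 2 * H := by omega
    · intro d hd d' hd' heq
      obtain ⟨_, ⟨c, hc⟩, _⟩ := mem_filter.mp (mem_coe.mp hd)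
      obtain ⟨_, ⟨c', hc'⟩, _⟩ := mem_filter.mp (mem_coe.mp hd')
      have h1 := Prod.ext_iff.mp heq
      simp only at h1
      rw [hc, hc', Nat.mul_div_cancel_left c hp, Nat.mul_div_cancel_left c' hp] at h1
      have h2 : d.1 + d.2 = d'.1 + d'.2 := by rw [hc, hc', h1.1]
      apply Prod.ext
      · have := h1.2
        omega
      · exact h1.2
  have k4 : ((PP p H).filter (fun d => p ∣ d.1 + d.2 ∧ d.1 ≤ d.2)).card ≤ (Ph K).card := by
    apply card_le_card_of_injOn (fun d => ((d.1 + d.2) / p, d.1))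
    · intro d hd
      obtain ⟨h1, h2, h2'⟩ := mem_filter.mp (mem_coe.mp hd)
      obtain ⟨h3, h4, h5⟩ := hbase d h1
      obtain ⟨c, hc⟩ := h2
      rw [mem_coe, mem_Ph]
      simp only
      rw [hc, Nat.mul_div_cancel_left c hp]
      have hc1 : 1 ≤ c := by
        rcases Nat.eq_zero_or_pos c with h | h
        · rw [h] at hc; omega
        · exact h
      refine ⟨hc1, h3, hKK _ ?_⟩
      calc p * (c * d.1) = p * c * d.1 := by ring
        _ = (d.1 + d.2) * d.1 := by rw [hc]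
        _ ≤ (d.2 + d.2) * d.1 := by gcongr
        _ = 2 * (d.1 * d.2) := by ring
        _ ≤ 2 * H := by omega
    · intro d hd d' hd' heq
      obtain ⟨_, ⟨c, hc⟩, _⟩ := mem_filter.mp (mem_coe.mp hd)
      obtain ⟨_, ⟨c', hc'⟩, _⟩ := mem_filter.mp (mem_coe.mp hd')
      have h1 := Prod.ext_iff.mp heq
      simp only at h1
      rw [hc, hc', Nat.mul_div_cancel_left c hp, Nat.mul_div_cancel_left c' hp] at h1
      have h2 : d.1 + d.2 = d'.1 + d'.2 := by rw [hc, hc', h1.1]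
      apply Prod.ext
      · exact h1.2
      · have := h1.2
        omega
  have u1 := card_le_card hsub
  have u2 := card_union_le ((PP p H).filter (fun d => p ∣ d.1))
    (((PP p H).filter (fun d => p ∣ d.2)) ∪
        (((PP p H).filter (fun d => p ∣ d.1 + d.2 ∧ d.2 ≤ d.1)) ∪
          ((PP p H).filter (fun d => p ∣ d.1 + d.2 ∧ d.1 ≤ d.2))))
  have u3 := card_union_le ((PP p H).filter (fun d => p ∣ d.2))
        (((PP p H).filter (fun d => p ∣ d.1 + d.2 ∧ d.2 ≤ d.1)) ∪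
          ((PP p H).filter (fun d => p ∣ d.1 + d.2 ∧ d.1 ≤ d.2)))
  have u4 := card_union_le ((PP p H).filter (fun d => p ∣ d.1 + d.2 ∧ d.2 ≤ d.1))
          ((PP p H).filter (fun d => p ∣ d.1 + d.2 ∧ d.1 ≤ d.2))
  omega

end Pool.Agent.Q240.Col
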