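import Pool.Agent.Q240.Col.Core

namespace Pool.Agent.Q240.Col

open Finset

theorem uniq {p : ℕ} {a b u v : ℤ} (ha : (p : ℤ) ∣ a) (ha0 : a ≠ 0) (hp : Prime (p : ℤ))
    (hb : ¬ (p : ℤ) ∣ b) (hv : |v| < p) (h : a * u + b * v = 0) : v = 0 ∧ u = 0 := by
  have h1 : (p : ℤ) ∣ b * v := by
    have : b * v = -(a * u) := by linarith
    rw [this]
    exact (Dvd.dvd.mul_right ha u).neg_right
  have h2 : (p : ℤ) ∣ v := (hp.dvd_or_dvd h1).resolve_left hb
  have h3 : v = 0 := Int.eq_zero_of_abs_lt_dvd h2 hv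
  refine ⟨h3, ?_⟩
  rw [h3, mul_zero, add_zero] at h
  exact (mul_eq_zero.mp h).resolve_left ha0

theorem diff_lt {q p : ℕ} (hqp : q ≤ p) (a b : Fin q) :
    |(((a : ℕ)) : ℤ) - ((b : ℕ) : ℤ)| < (p : ℤ) := by
  have h1 := a.isLt
  have h2 := b.isLt
  rw [abs_lt]
  constructor <;> omega

/-- the linear relation between two solutions -/
theorem E_lin {p q m n : ℕ} [hp : Fact p.Prime] {y y' : Fin n → Fin q}
    {i j k : Fin n} {a b : ℕ} (ha : j.val = i.val + a) (hb : k.val = j.val + b)
    (h : E p q m (i, j, k) y) (h' : E p q m (i, j, k) y') :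
    (b : ℤ) * (((y i : ℕ) : ℤ) - ((y' i : ℕ) : ℤ)) -
      ((a : ℤ) + b) * (((y j : ℕ) : ℤ) - ((y' j : ℕ) : ℤ)) +
      (a : ℤ) * (((y k : ℕ) : ℤ) - ((y' k : ℕ) : ℤ)) = 0 := by
  have hppos : (0 : ℤ) < p := by exact_mod_cast hp.out.pos
  have e1 : (j.val : ℤ) - i.val = a := by
    have : (j.val : ℤ) = i.val + a := by exact_mod_cast ha
    linarith
  have e2 : (k.val : ℤ) - j.val = b := by
    have : (k.val : ℤ) = j.val + b := by exact_mod_cast hb
    linarith
  unfold E at h h'
  simp only at h h'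
  rw [e1, e2] at h h'
  unfold A at h h'
  have h3 : (p : ℤ) * ((b : ℤ) * (((y i : ℕ) : ℤ) - ((y' i : ℕ) : ℤ)) -
      ((a : ℤ) + b) * (((y j : ℕ) : ℤ) - ((y' j : ℕ) : ℤ)) +
      (a : ℤ) * (((y k : ℕ) : ℤ) - ((y' k : ℕ) : ℤ))) = 0 := by
    linear_combination h - h'
  exact (mul_eq_zero.mp h3).resolve_left hppos.ne'

/-- two free coordinates determine each other given the rest -/
theorem exists_free {p q m n : ℕ} [hp : Fact p.Prime] (hqp : q ≤ p)
    (hH : 2 * m * (q + 1) < p ^ 2) {i j k : Fin n}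
    (hij : i < j) (hjk : j < k)
    (hmem : ((j.val - i.val, k.val - j.val) : ℕ × ℕ) ∈ PP p (2 * m * (q + 1))) :
    ∃ β γ : Fin n, β ≠ γ ∧ (β = i ∨ β = j ∨ β = k) ∧ (γ = i ∨ γ = j ∨ γ = k) ∧
      ∀ y y' : Fin n → Fin q, E p q m (i, j, k) y → E p q m (i, j, k) y' →
        (∀ a, a ≠ β → a ≠ γ → y a = y' a) → y = y' := by
  obtain ⟨a, ha⟩ : ∃ a : ℕ, j.val = i.val + a := ⟨j.val - i.val, by
    have : i.val < j.val := hij
    omega⟩
  obtain ⟨b, hb⟩ : ∃ b : ℕ, k.val = j.val + b := ⟨k.val - j.val, by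
    have : j.val < k.val := hjk
    omega⟩
  have hja : j.val - i.val = a := by omega
  have hkb : k.val - j.val = b := by omega
  rw [hja, hkb] at hmem
  unfold PP at hmem
  rw [mem_filter, mem_product, mem_Icc, mem_Icc] at hmem
  obtain ⟨⟨⟨ha1, _⟩, ⟨hb1, _⟩⟩, hab, hdiv⟩ := hmem
  simp only at ha1 hb1 hab hdiv
  have hpz : Prime (p : ℤ) := Nat.prime_iff_prime_int.mp hp.out
  have hnot : ¬ (p ∣ a ∧ p ∣ b) := by
    rintro ⟨h1, h2⟩
    have h3 := Nat.le_of_dvd (by omega) h1
    have h4 := Nat.le_of_dvd (by omega) h2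
    have h5 : p * p ≤ a * b := Nat.mul_le_mul h3 h4
    have h6 : p ^ 2 = p * p := by ring
    omega
  have hanz : (a : ℤ) ≠ 0 := by
    have : a ≠ 0 := by omega
    exact_mod_cast this
  have hbnz : (b : ℤ) ≠ 0 := by
    have : b ≠ 0 := by omega
    exact_mod_cast this
  have habnz : -((a : ℤ) + b) ≠ 0 := by
    have h1 : (0 : ℤ) ≤ a := Int.natCast_nonneg _
    have h2 : (0 : ℤ) ≤ b := Int.natCast_nonneg _
    omega
  have hik : i ≠ k := (hij.trans hjk).ne
  have hij' : i ≠ j := hij.ne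
  have hjk' : j ≠ k := hjk.ne
  have cast_eq : ∀ x x' : Fin q, (((x : ℕ)) : ℤ) - ((x' : ℕ) : ℤ) = 0 → x = x' := by
    intro x x' h
    apply Fin.ext
    have : ((x : ℕ) : ℤ) = ((x' : ℕ) : ℤ) := by linarith
    exact_mod_cast this
  rcases hdiv with hd | hd | hd
  · -- p ∣ a: free coordinates j, k
    refine ⟨j, k, hjk', by simp, by simp, fun y y' hy hy' hag => ?_⟩
    have hlin := E_lin ha hb hy hy'
    have hi : y i = y' i := hag i hij' hik
    rw [hi] at hlin
    have hnb : ¬ (p : ℤ) ∣ -((a : ℤ) + b) := by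
      intro h
      rw [dvd_neg] at h
      have h' : p ∣ a + b := by exact_mod_cast h
      exact hnot ⟨hd, (Nat.dvd_add_right hd).mp h'⟩
    have := uniq (p := p) (a := (a : ℤ)) (b := -((a : ℤ) + b))
      (u := ((y k : ℕ) : ℤ) - ((y' k : ℕ) : ℤ)) (v := ((y j : ℕ) : ℤ) - ((y' j : ℕ) : ℤ))
      (by exact_mod_cast hd) hanz hpz hnb (diff_lt hqp _ _) (by linarith)
    funext c
    by_cases hcj : c = j
    · rw [hcj]; exact cast_eq _ _ this.1
    · by_cases hck : c = k
      · rw [hck]; exact cast_eq _ _ this.2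
      · exact hag c hcj hck
  · -- p ∣ b: free coordinates j, i
    refine ⟨j, i, hij'.symm, by simp, by simp, fun y y' hy hy' hag => ?_⟩
    have hlin := E_lin ha hb hy hy'
    have hk : y k = y' k := hag k hjk'.symm hik.symm
    rw [hk] at hlin
    have hnb : ¬ (p : ℤ) ∣ -((a : ℤ) + b) := by
      intro h
      rw [dvd_neg] at h
      have h' : p ∣ a + b := by exact_mod_cast h
      exact hnot ⟨(Nat.dvd_add_left hd).mp h', hd⟩
    have := uniq (p := p) (a := (b : ℤ)) (b := -((a : ℤ) + b))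
      (u := ((y i : ℕ) : ℤ) - ((y' i : ℕ) : ℤ)) (v := ((y j : ℕ) : ℤ) - ((y' j : ℕ) : ℤ))
      (by exact_mod_cast hd) hbnz hpz hnb (diff_lt hqp _ _) (by linarith)
    funext c
    by_cases hcj : c = j
    · rw [hcj]; exact cast_eq _ _ this.1
    · by_cases hci : c = i
      · rw [hci]; exact cast_eq _ _ this.2
      · exact hag c hcj hci
  · -- p ∣ a + b: free coordinates k, j
    refine ⟨k, j, hjk'.symm, by simp, by simp, fun y y' hy hy' hag => ?_⟩
    have hlin := E_lin ha hb hy hy'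
    have hi : y i = y' i := hag i hik hij'
    rw [hi] at hlin
    have hnb : ¬ (p : ℤ) ∣ (a : ℤ) := by
      intro h
      have h' : p ∣ a := by exact_mod_cast h
      exact hnot ⟨h', (Nat.dvd_add_right h').mp hd⟩
    have hdz : (p : ℤ) ∣ -((a : ℤ) + b) := by
      rw [dvd_neg]; exact_mod_cast hd
    have := uniq (p := p) (a := -((a : ℤ) + b)) (b := (a : ℤ))
      (u := ((y j : ℕ) : ℤ) - ((y' j : ℕ) : ℤ)) (v := ((y k : ℕ) : ℤ) - ((y' k : ℕ) : ℤ))
      hdz habnz hpz hnb (diff_lt hqp _ _) (by linarith)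
    funext c
    by_cases hck : c = k
    · rw [hck]; exact cast_eq _ _ this.1
    · by_cases hcj : c = j
      · rw [hcj]; exact cast_eq _ _ this.2
      · exact hag c hck hcj

/-- counting by two free coordinates -/
theorem inj_count {n q : ℕ} (X Y : Finset (Fin n → Fin q)) (β γ : Fin n) (hβγ : β ≠ γ)
    (hmap : ∀ x ∈ X, ∀ b c, Function.update (Function.update x β b) γ c ∈ Y)
    (hinj : ∀ x ∈ X, ∀ x' ∈ X, (∀ a, a ≠ β → a ≠ γ → x a = x' a) → x = x') :
    X.card * q ^ 2 ≤ Y.card := by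
  classical
  let f : (Fin n → Fin q) × Fin q × Fin q → (Fin n → Fin q) :=
    fun t => Function.update (Function.update t.1 β t.2.1) γ t.2.2
  have h1 : ((X ×ˢ (univ : Finset (Fin q × Fin q))).image f).card ≤ Y.card := by
    apply card_le_card
    intro z hz
    rw [mem_image] at hz
    obtain ⟨⟨x, b, c⟩, ht, rfl⟩ := hz
    exact hmap x (mem_product.mp ht).1 b c
  rw [card_image_of_injOn] at h1
  · rw [card_product, card_univ, Fintype.card_prod, Fintype.card_fin] at h1
    calc X.card * q ^ 2 = X.card * (q * q) := by ring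
      _ ≤ Y.card := h1
  · rintro ⟨x, b, c⟩ ht ⟨x', b', c'⟩ ht' hff
    have hx : x ∈ X := (mem_product.mp (mem_coe.mp ht)).1
    have hx' : x' ∈ X := (mem_product.mp (mem_coe.mp ht')).1
    have hff' : ∀ a, Function.update (Function.update x β b) γ c a =
        Function.update (Function.update x' β b') γ c' a := fun a => congrFun hff a
    have hc : c = c' := by
      have := hff' γ
      simpa using this
    have hb : b = b' := by
      have := hff' β
      rw [Function.update_of_ne hβγ, Function.update_of_ne hβγ] at this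
      simpa using this
    have hxx : x = x' := by
      apply hinj x hx x' hx'
      intro a ha1 ha2
      have := hff' a
      rw [Function.update_of_ne ha2, Function.update_of_ne ha2, Function.update_of_ne ha1,
        Function.update_of_ne ha1] at this
      exact this
    rw [hc, hb, hxx]

/-- the event depends only on its three coordinates -/
theorem E_congr {p q m n : ℕ} {t : Fin n × Fin n × Fin n} {y y' : Fin n → Fin q}
    (h1 : y t.1 = y' t.1) (h2 : y t.2.1 = y' t.2.1) (h3 : y t.2.2 = y' t.2.2) :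
    E p q m t y ↔ E p q m t y' := by
  unfold E A
  rw [h1, h2, h3]

/-- the set of dangerous triples -/
noncomputable def SS (p H n : ℕ) : Finset (Fin n × Fin n × Fin n) := by
  classical
  exact univ.filter (fun t => t.1 < t.2.1 ∧ t.2.1 < t.2.2 ∧
    ((t.2.1.val - t.1.val, t.2.2.val - t.2.1.val) : ℕ × ℕ) ∈ PP p H)

theorem mem_SS {p H n : ℕ} {t : Fin n × Fin n × Fin n} : t ∈ SS p H n ↔
    t.1 < t.2.1 ∧ t.2.1 < t.2.2 ∧
    ((t.2.1.val - t.1.val, t.2.2.val - t.2.1.val) : ℕ × ℕ) ∈ PP p H := by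
  classical
  unfold SS
  rw [mem_filter]
  simp

/-- the dangerous triples through the index `a` -/
noncomputable def BB (p H n : ℕ) (a : Fin n) : Finset (Fin n × Fin n × Fin n) := by
  classical
  exact (SS p H n).filter (fun t => t.1 = a ∨ t.2.1 = a ∨ t.2.2 = a)

theorem mem_BB {p H n : ℕ} {a : Fin n} {t : Fin n × Fin n × Fin n} : t ∈ BB p H n a ↔
    t ∈ SS p H n ∧ (t.1 = a ∨ t.2.1 = a ∨ t.2.2 = a) := by
  classical
  unfold BB
  rw [mem_filter]

theorem card_BB (p H n : ℕ) (a : Fin n) : (BB p H n a).card ≤ 3 * (PP p H).card := by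
  classical
  have hsub : BB p H n a ⊆ ((SS p H n).filter (fun t => t.1 = a)) ∪
      (((SS p H n).filter (fun t => t.2.1 = a)) ∪ ((SS p H n).filter (fun t => t.2.2 = a))) := by
    intro t ht
    unfold BB at ht
    rw [mem_filter] at ht
    rw [mem_union, mem_union, mem_filter, mem_filter, mem_filter]
    tauto
  have key : ∀ (P : Fin n × Fin n × Fin n → Prop) [DecidablePred P],
      (∀ t ∈ SS p H n, ∀ t' ∈ SS p H n, P t → P t' →
        t.2.1.val - t.1.val = t'.2.1.val - t'.1.val →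
        t.2.2.val - t.2.1.val = t'.2.2.val - t'.2.1.val → t = t') →
      ((SS p H n).filter P).card ≤ (PP p H).card := by
    intro P _ hP
    apply card_le_card_of_injOn
      (fun t => ((t.2.1.val - t.1.val, t.2.2.val - t.2.1.val) : ℕ × ℕ))
    · intro t ht
      have ht' := (mem_filter.mp (mem_coe.mp ht)).1
      exact mem_coe.mpr (mem_SS.mp ht').2.2
    · intro t ht t' ht' heq
      have h1 := mem_filter.mp (mem_coe.mp ht)
      have h2 := mem_filter.mp (mem_coe.mp ht')
      have h3 := Prod.ext_iff.mp heq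
      exact hP t h1.1 t' h2.1 h1.2 h2.2 h3.1 h3.2
  have hext : ∀ t t' : Fin n × Fin n × Fin n, t.1.val = t'.1.val → t.2.1.val = t'.2.1.val →
      t.2.2.val = t'.2.2.val → t = t' := by
    intro t t' h1 h2 h3
    exact Prod.ext (Fin.ext h1) (Prod.ext (Fin.ext h2) (Fin.ext h3))
  have k1 : ((SS p H n).filter (fun t => t.1 = a)).card ≤ (PP p H).card := by
    apply key
    intro t ht t' ht' h1 h2 h3 h4
    have o1 : t.1.val < t.2.1.val := (mem_SS.mp ht).1
    have o2 : t.2.1.val < t.2.2.val := (mem_SS.mp ht).2.1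
    have o3 : t'.1.val < t'.2.1.val := (mem_SS.mp ht').1
    have o4 : t'.2.1.val < t'.2.2.val := (mem_SS.mp ht').2.1
    have e1 : t.1.val = t'.1.val := by rw [h1, h2]
    apply hext <;> omega
  have k2 : ((SS p H n).filter (fun t => t.2.1 = a)).card ≤ (PP p H).card := by
    apply key
    intro t ht t' ht' h1 h2 h3 h4
    have o1 : t.1.val < t.2.1.val := (mem_SS.mp ht).1
    have o2 : t.2.1.val < t.2.2.val := (mem_SS.mp ht).2.1
    have o3 : t'.1.val < t'.2.1.val := (mem_SS.mp ht').1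
    have o4 : t'.2.1.val < t'.2.2.val := (mem_SS.mp ht').2.1
    have e1 : t.2.1.val = t'.2.1.val := by rw [h1, h2]
    apply hext <;> omega
  have k3 : ((SS p H n).filter (fun t => t.2.2 = a)).card ≤ (PP p H).card := by
    apply key
    intro t ht t' ht' h1 h2 h3 h4
    have o1 : t.1.val < t.2.1.val := (mem_SS.mp ht).1
    have o2 : t.2.1.val < t.2.2.val := (mem_SS.mp ht).2.1
    have o3 : t'.1.val < t'.2.1.val := (mem_SS.mp ht').1
    have o4 : t'.2.1.val < t'.2.2.val := (mem_SS.mp ht').2.1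
    have e1 : t.2.2.val = t'.2.2.val := by rw [h1, h2]
    apply hext <;> omega
  calc (BB p H n a).card ≤ _ := card_le_card hsub
    _ ≤ _ := card_union_le _ _
    _ ≤ ((SS p H n).filter (fun t => t.1 = a)).card +
      (((SS p H n).filter (fun t => t.2.1 = a)).card +
        ((SS p H n).filter (fun t => t.2.2 = a)).card) := by
        gcongr
        exact card_union_le _ _
    _ ≤ 3 * (PP p H).card := by omega

/-- **Core**: a choice of the perturbations without collinear triples. -/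
theorem core {p q m : ℕ} (n : ℕ) [hp : Fact p.Prime] (hm : 1 ≤ m) (hq2 : 2 ≤ q) (hqp : q ≤ p)
    (hH : 2 * m * (q + 1) < p ^ 2) (hcnt : 36 * (PP p (2 * m * (q + 1))).card ≤ q ^ 2) :
    ∃ y : Fin n → Fin q, ∀ i j k : Fin n, i < j → j < k → ¬ E p q m (i, j, k) y := by
  classical
  set H := 2 * m * (q + 1) with hHdef
  let nb : Fin n × Fin n × Fin n → Finset (Fin n × Fin n × Fin n) :=
    fun t => BB p H n t.1 ∪ (BB p H n t.2.1 ∪ BB p H n t.2.2)
  have hqpos : (0 : ℝ) < (q : ℝ) ^ 2 := by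
    have : 0 < q := by omega
    positivity
  have h4 : 4 * ((9 * (PP p H).card : ℕ) : ℝ) * (1 / (q : ℝ) ^ 2) ≤ 1 := by
    rw [mul_one_div, div_le_one hqpos]
    have : 4 * (9 * (PP p H).card) ≤ q ^ 2 := by omega
    exact_mod_cast this
  have hq4 : (4 : ℝ) ≤ (q : ℝ) ^ 2 := by
    have : 2 * 2 ≤ q * q := Nat.mul_le_mul hq2 hq2
    have h : 4 ≤ q ^ 2 := by rw [pow_two]; exact this
    exact_mod_cast h
  have hnb : ∀ i ∈ SS p H n, (nb i).card ≤ 9 * (PP p H).card := by
    intro t _
    have h1 := card_BB p H n t.1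
    have h2 := card_BB p H n t.2.1
    have h3 := card_BB p H n t.2.2
    have h5 : (nb t).card ≤ (BB p H n t.1).card + (BB p H n t.2.1 ∪ BB p H n t.2.2).card :=
      card_union_le _ _
    have h6 := card_union_le (BB p H n t.2.1) (BB p H n t.2.2)
    omega
  have hind : ∀ i ∈ SS p H n, ∀ T ⊆ SS p H n, (∀ j ∈ T, j ∉ nb i) →
      (((univ : Finset (Fin n → Fin q)).filter
        fun x => E p q m i x ∧ ∀ j ∈ T, ¬ E p q m j x).card : ℝ) ≤
      1 / (q : ℝ) ^ 2 * ((univ : Finset (Fin n → Fin q)).filter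
        fun x => ∀ j ∈ T, ¬ E p q m j x).card := by
    rintro ⟨i, j, k⟩ hi T hT hTn
    obtain ⟨hij, hjk, hmem⟩ := mem_SS.mp hi
    simp only at hij hjk hmem
    obtain ⟨β, γ, hβγ, hβ, hγ, hu⟩ := exists_free (m := m) hqp hH hij hjk hmem
    have hcount := inj_count
      ((univ : Finset (Fin n → Fin q)).filter
        fun x => E p q m (i, j, k) x ∧ ∀ j ∈ T, ¬ E p q m j x)
      ((univ : Finset (Fin n → Fin q)).filter fun x => ∀ j ∈ T, ¬ E p q m j x) β γ hβγ
      (by
        intro x hx b c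
        rw [mem_filter] at hx ⊢
        refine ⟨mem_univ _, fun s hs => ?_⟩
        have hsS := hT hs
        have hsn := hTn s hs
        have hmemB : ∀ a : Fin n, (a = i ∨ a = j ∨ a = k) → s ∈ BB p H n a → False := by
          intro a ha hsB
          apply hsn
          change s ∈ BB p H n i ∪ (BB p H n j ∪ BB p H n k)
          rw [mem_union, mem_union]
          rcases ha with h' | h' | h'
          · rw [← h']; exact Or.inl hsB
          · rw [← h']; exact Or.inr (Or.inl hsB)
          · rw [← h']; exact Or.inr (Or.inr hsB)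
        have hno : ∀ a : Fin n, (a = i ∨ a = j ∨ a = k) → s.1 ≠ a ∧ s.2.1 ≠ a ∧ s.2.2 ≠ a :=
          fun a ha => ⟨fun h => hmemB a ha (mem_BB.mpr ⟨hsS, Or.inl h⟩),
            fun h => hmemB a ha (mem_BB.mpr ⟨hsS, Or.inr (Or.inl h)⟩),
            fun h => hmemB a ha (mem_BB.mpr ⟨hsS, Or.inr (Or.inr h)⟩)⟩
        have hb := hno β hβ
        have hc := hno γ hγ
        have heq : E p q m s (Function.update (Function.update x β b) γ c) ↔ E p q m s x := by
          apply E_congr
          · rw [Function.update_of_ne hc.1, Function.update_of_ne hb.1]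
          · rw [Function.update_of_ne hc.2.1, Function.update_of_ne hb.2.1]
          · rw [Function.update_of_ne hc.2.2, Function.update_of_ne hb.2.2]
        rw [heq]
        exact hx.2.2 s hs)
      (by
        intro x hx x' hx' hag
        exact hu x x' (mem_filter.mp hx).2.1 (mem_filter.mp hx').2.1 hag)
    rw [one_div, inv_mul_eq_div, le_div_iff₀ hqpos]
    exact_mod_cast hcount
  have hL := H542.RK.P.lll (univ : Finset (Fin n → Fin q)) (E p q m) (SS p H n) nb
    (9 * (PP p H).card) (1 / (q : ℝ) ^ 2) (by positivity) h4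
    (by rw [mul_one_div, div_le_one hqpos]; linarith) hnb
    (by
      intro i hi T hT hTn
      have h := hind i hi T hT hTn
      convert h)
  have hpos : (0 : ℝ) < (1 - 2 * (1 / (q : ℝ) ^ 2)) ^ (SS p H n).card *
      ((univ : Finset (Fin n → Fin q)).card : ℝ) := by
    apply mul_pos
    · apply pow_pos
      have : 2 * (1 / (q : ℝ) ^ 2) ≤ 2 / 4 := by
        rw [mul_one_div]
        exact div_le_div_of_nonneg_left (by norm_num) (by norm_num) hq4
      linarith
    · have : 0 < (univ : Finset (Fin n → Fin q)).card := by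
        rw [card_univ, Fintype.card_fun, Fintype.card_fin, Fintype.card_fin]
        exact pow_pos (by omega) _
      exact_mod_cast this
  have hne := Nat.cast_pos.mp (lt_of_lt_of_le hpos hL)
  obtain ⟨y, hy⟩ := card_pos.mp hne
  have hy2 : ∀ t ∈ SS p H n, ¬ E p q m t y := by
    simpa only [mem_filter, mem_univ, true_and] using hy
  refine ⟨y, fun i j k hij hjk hE => ?_⟩
  exact hy2 (i, j, k) (mem_SS.mpr ⟨hij, hjk, E_mem hm hij hjk hE⟩) hE

end Pool.Agent.Q240.Col
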