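import Pool.Agent.Q240.Col.Count

namespace Pool.Agent.Q240.Col

open Finset

theorem evt (s : ℕ) : ∃ k0 : ℕ, ∀ k : ℕ, k0 ≤ k →
    1152 * (1 + Real.log (8 * (k : ℝ) ^ (2 * s + 1))) ≤ (k : ℝ) := by
  have hc : (0 : ℝ) < 1 / (2 * 1152 * (2 * s + 1)) := by positivity
  have h1 := (Real.isLittleO_log_id_atTop).def hc
  obtain ⟨X, hX⟩ := Filter.eventually_atTop.mp h1
  refine ⟨max (max ⌈X⌉₊ 1) ⌈2 * 1152 * (1 + Real.log 8)⌉₊, fun k hk => ?_⟩
  have hk1 : X ≤ k := (Nat.le_ceil X).trans (by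
    exact_mod_cast (le_max_left _ _).trans ((le_max_left _ _).trans hk))
  have hk2 : 1 ≤ k := (le_max_right _ _).trans ((le_max_left _ _).trans hk)
  have hk3 : 2 * 1152 * (1 + Real.log 8) ≤ k := (Nat.le_ceil _).trans (by
    exact_mod_cast (le_max_right _ _).trans hk)
  have hkpos : (0 : ℝ) < k := by exact_mod_cast hk2
  have h2 := hX k hk1
  simp only [id, Real.norm_eq_abs] at h2
  rw [abs_of_pos hkpos] at h2
  have h3 : Real.log k ≤ 1 / (2 * 1152 * (2 * s + 1)) * k := (le_abs_self _).trans h2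
  have h4 : Real.log (8 * (k : ℝ) ^ (2 * s + 1)) = Real.log 8 + (2 * s + 1) * Real.log k := by
    rw [Real.log_mul (by norm_num) (by positivity), Real.log_pow]
    push_cast
    ring
  rw [h4]
  have h5 : 1152 * ((2 * (s : ℝ) + 1) * Real.log k) ≤ k / 2 := by
    have h6 : (0 : ℝ) < 2 * s + 1 := by positivity
    calc 1152 * ((2 * (s : ℝ) + 1) * Real.log k)
        ≤ 1152 * ((2 * (s : ℝ) + 1) * (1 / (2 * 1152 * (2 * s + 1)) * k)) := by gcongr
      _ = k / 2 := by field_simp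
  linarith

theorem T_mono {q m i j : ℕ} (h : i ≤ j) : T q m i + (q + 1) * ((j : ℤ) - i) ≤ T q m j := by
  unfold T
  have h1 : i ^ 2 / (2 * m) ≤ j ^ 2 / (2 * m) := Nat.div_le_div_right (Nat.pow_le_pow_left h 2)
  have h2 : ((i ^ 2 / (2 * m) : ℕ) : ℤ) ≤ ((j ^ 2 / (2 * m) : ℕ) : ℤ) := by exact_mod_cast h1
  push_cast at h2 ⊢
  linarith

theorem A_lt {p q m n : ℕ} (hp : 0 < p) {y : Fin n → Fin q} {i j : Fin n} (h : i < j) :
    A p q m y i < A p q m y j := by
  have hpz : (0 : ℤ) < p := by exact_mod_cast hp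
  have hij : i.val < j.val := h
  have h1 := T_mono (q := q) (m := m) hij.le
  have h2 : (1 : ℤ) ≤ (j.val : ℤ) - i.val := by
    have : (i.val : ℤ) + 1 ≤ j.val := by exact_mod_cast hij
    linarith
  have h3 : ((q : ℤ) + 1) * 1 ≤ (q + 1) * ((j.val : ℤ) - i.val) :=
    mul_le_mul_of_nonneg_left h2 (by positivity)
  have h4 : (((y i : ℕ)) : ℤ) + 1 ≤ q := by exact_mod_cast (y i).isLt
  have h5 : (0 : ℤ) ≤ (((y j : ℕ)) : ℤ) := Int.natCast_nonneg _
  have h6 : r p i.val < p := by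
    unfold r
    exact_mod_cast Nat.mod_lt _ hp
  have h7 : 0 ≤ r p j.val := by unfold r; exact Int.natCast_nonneg _
  unfold A
  have h8 : (p : ℤ) * (T q m i.val + ((y i : ℕ) : ℤ) + 2) ≤
      p * (T q m j.val + ((y j : ℕ) : ℤ)) := by
    apply mul_le_mul_of_nonneg_left _ hpz.le
    linarith
  linarith

/-- **Long sequences without collinear triples.** -/
theorem exists_seq (s : ℕ) : ∃ k0 : ℕ, ∀ k : ℕ, k0 ≤ k → ∃ a : ℕ → ℤ,
    (∀ j, 1 ≤ j → j ≤ k ^ (4 * s + 3) → 0 < a j ∧ a j ≤ 8 * (k : ℤ) ^ (7 * s + 6)) ∧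
    (∀ i j, 1 ≤ i → i < j → j ≤ k ^ (4 * s + 3) → a i < a j) ∧
    (∀ i j l, 1 ≤ i → i < j → j < l → l ≤ k ^ (4 * s + 3) →
      (a l - a j) * ((j : ℤ) - i) ≠ (a j - a i) * ((l : ℤ) - j)) := by
  obtain ⟨k1, hk1⟩ := evt s
  refine ⟨max k1 5, fun k hk => ?_⟩
  have hkk1 : k1 ≤ k := (le_max_left _ _).trans hk
  have hk5 : 5 ≤ k := (le_max_right _ _).trans hk
  have hkpos : 0 < k := by omega
  obtain ⟨p, hpp, hp1, hp2⟩ := Nat.exists_prime_lt_and_le_two_mul (k ^ (2 * s + 2))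
    (by positivity)
  have : Fact p.Prime := ⟨hpp⟩
  set q := k ^ (s + 1) with hq
  set m := k ^ (3 * s + 2) with hm
  set n := k ^ (4 * s + 3) with hn
  have hm1 : 1 ≤ m := Nat.one_le_pow _ _ hkpos
  have hq1 : 1 ≤ q := Nat.one_le_pow _ _ hkpos
  have hq2 : 2 ≤ q := by
    calc 2 ≤ k := by omega
      _ = k ^ 1 := (pow_one k).symm
      _ ≤ k ^ (s + 1) := Nat.pow_le_pow_right hkpos (by omega)
  have hqp : q ≤ p := by
    calc q ≤ k ^ (2 * s + 2) := Nat.pow_le_pow_right hkpos (by omega)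
      _ ≤ p := hp1.le
  have hmq : m * q = n := by
    rw [hm, hq, hn, ← pow_add]
    congr 1
    ring
  have hHle : 2 * m * (q + 1) ≤ 4 * n := by
    calc 2 * m * (q + 1) ≤ 2 * m * (q + q) := by gcongr
      _ = 4 * (m * q) := by ring
      _ = 4 * n := by rw [hmq]
  have hp2' : (k ^ (2 * s + 2)) ^ 2 < p ^ 2 := Nat.pow_lt_pow_left hp1 (by norm_num)
  have hkn : k * n = (k ^ (2 * s + 2)) ^ 2 := by
    rw [hn, ← pow_succ', ← pow_mul]
    congr 1
    ring
  have hH : 2 * m * (q + 1) < p ^ 2 := by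
    calc 2 * m * (q + 1) ≤ 4 * n := hHle
      _ ≤ k * n := by
        apply Nat.mul_le_mul_right
        omega
      _ = (k ^ (2 * s + 2)) ^ 2 := hkn
      _ < p ^ 2 := hp2'
  have hcnt : 36 * (PP p (2 * m * (q + 1))).card ≤ q ^ 2 := by
    set K := 8 * k ^ (2 * s + 1) with hK
    have h1 : (PP p (2 * m * (q + 1))).card ≤ 4 * (Ph K).card := by
      apply card_PP hpp.pos
      have h2 : 8 * n = k ^ (2 * s + 2) * K := by
        have e : 4 * s + 3 = (2 * s + 2) + (2 * s + 1) := by ring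
        rw [hK, hn, e, pow_add]
        ring
      have h3 : k ^ (2 * s + 2) * K ≤ p * K := Nat.mul_le_mul_right K hp1.le
      omega
    have h2 := card_Ph K
    have h3 : (K : ℝ) = 8 * (k : ℝ) ^ (2 * s + 1) := by rw [hK]; push_cast; ring
    have h4 := hk1 k hkk1
    have h5 : (144 : ℝ) * ((Ph K).card : ℝ) ≤ (q : ℝ) ^ 2 := by
      calc (144 : ℝ) * ((Ph K).card : ℝ) ≤ 144 * (K * (1 + Real.log K)) := by gcongr
        _ = (k : ℝ) ^ (2 * s + 1) * (1152 * (1 + Real.log (8 * (k : ℝ) ^ (2 * s + 1)))) := by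
          rw [h3]; ring
        _ ≤ (k : ℝ) ^ (2 * s + 1) * k := by gcongr
        _ = (q : ℝ) ^ 2 := by
          rw [hq]
          push_cast
          rw [← pow_succ, ← pow_mul]
          congr 1
          ring
    have h6 : 144 * (Ph K).card ≤ q ^ 2 := by exact_mod_cast h5
    omega
  obtain ⟨y, hy⟩ := core (n + 1) hm1 hq2 hqp hH hcnt
  let a : ℕ → ℤ := fun j => if h : j < n + 1 then A p q m y ⟨j, h⟩ else 0
  have ha : ∀ j (h : j < n + 1), a j = A p q m y ⟨j, h⟩ := by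
    intro j h
    simp only [a, dif_pos h]
  have hppos : (0 : ℤ) < p := by exact_mod_cast hpp.pos
  have hk52 : (k : ℤ) ^ (2 * s + 2) * (k : ℤ) ^ (5 * s + 4) = (k : ℤ) ^ (7 * s + 6) := by
    rw [← pow_add]
    congr 1
    ring
  refine ⟨a, ?_, ?_, ?_⟩
  · intro j hj1 hjn
    rw [ha j (by omega)]
    have hTj : (q : ℤ) + 1 ≤ T q m j := by
      have h1 := T_mono (q := q) (m := m) (i := 0) (j := j) (by omega)
      have h2 : T q m 0 = 0 := by
        unfold T
        simp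
      rw [h2] at h1
      have h3 : (1 : ℤ) ≤ (j : ℤ) := by exact_mod_cast hj1
      have h4 : ((q : ℤ) + 1) * 1 ≤ (q + 1) * ((j : ℤ) - (0 : ℕ)) := by
        apply mul_le_mul_of_nonneg_left _ (by positivity)
        push_cast
        linarith
      linarith
    have h5 : (0 : ℤ) ≤ (((y ⟨j, by omega⟩ : Fin q) : ℕ) : ℤ) := Int.natCast_nonneg _
    have h5' : ((((y ⟨j, by omega⟩ : Fin q) : ℕ)) : ℤ) + 1 ≤ q := by
      exact_mod_cast (y ⟨j, by omega⟩).isLt
    have h6 : r p j < p := by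
      unfold r
      exact_mod_cast Nat.mod_lt _ hpp.pos
    have h7 : 0 ≤ r p j := by unfold r; exact Int.natCast_nonneg _
    constructor
    · unfold A
      have h8 : 0 < (p : ℤ) * (T q m j + (((y ⟨j, by omega⟩ : Fin q) : ℕ) : ℤ)) := by
        apply mul_pos hppos
        have : (0 : ℤ) ≤ q := Int.natCast_nonneg _
        linarith
      simp only
      linarith
    · have hTn : T q m j ≤ 3 * (k : ℤ) ^ (5 * s + 4) := by
        have h9 : (q + 1) * j + j ^ 2 / (2 * m) ≤ 3 * k ^ (5 * s + 4) := by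
          have e1 : (q + 1) * j ≤ 2 * k ^ (5 * s + 4) := by
            calc (q + 1) * j ≤ (q + q) * n := by gcongr
              _ = 2 * (k ^ (s + 1) * k ^ (4 * s + 3)) := by rw [hq, hn]; ring
              _ = 2 * k ^ (5 * s + 4) := by
                rw [← pow_add]
                congr 2
                ring
          have e2 : j ^ 2 / (2 * m) ≤ k ^ (5 * s + 4) := by
            apply Nat.div_le_of_le_mul
            calc j ^ 2 ≤ n ^ 2 := Nat.pow_le_pow_left hjn 2
              _ = m * k ^ (5 * s + 4) := by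
                rw [hn, hm, ← pow_mul, ← pow_add]
                congr 1
                ring
              _ ≤ 2 * m * k ^ (5 * s + 4) := by
                apply Nat.mul_le_mul_right
                omega
          omega
        unfold T
        exact_mod_cast h9
      have hq54 : (q : ℤ) ≤ (k : ℤ) ^ (5 * s + 4) := by
        have : q ≤ k ^ (5 * s + 4) := Nat.pow_le_pow_right hkpos (by omega)
        exact_mod_cast this
      have hp2z : (p : ℤ) ≤ 2 * (k : ℤ) ^ (2 * s + 2) := by exact_mod_cast hp2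
      unfold A
      simp only
      calc (p : ℤ) * (T q m j + (((y ⟨j, by omega⟩ : Fin q) : ℕ) : ℤ)) + r p j
          ≤ p * (T q m j + (((y ⟨j, by omega⟩ : Fin q) : ℕ) : ℤ)) + p := by linarith
        _ = p * (T q m j + (((y ⟨j, by omega⟩ : Fin q) : ℕ) : ℤ) + 1) := by ring
        _ ≤ p * (4 * (k : ℤ) ^ (5 * s + 4)) := by
          apply mul_le_mul_of_nonneg_left _ hppos.le
          linarith
        _ ≤ (2 * (k : ℤ) ^ (2 * s + 2)) * (4 * (k : ℤ) ^ (5 * s + 4)) := by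
          apply mul_le_mul_of_nonneg_right hp2z (by positivity)
        _ = 8 * ((k : ℤ) ^ (2 * s + 2) * (k : ℤ) ^ (5 * s + 4)) := by ring
        _ = 8 * (k : ℤ) ^ (7 * s + 6) := by rw [hk52]
  · intro i j _ hij hjn
    rw [ha i (by omega), ha j (by omega)]
    exact A_lt hpp.pos hij
  · intro i j l _ hij hjl hln
    rw [ha i (by omega), ha j (by omega), ha l (by omega)]
    exact hy ⟨i, by omega⟩ ⟨j, by omega⟩ ⟨l, by omega⟩ hij hjl

end Pool.Agent.Q240.Col
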